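import Mathlib
import Pool.Agent.H47.Ext3

/-- A centrally essential torsion-free ring of finite rank with an essential right ideal
that is not a left ideal. -/
theorem Pool.Agent.Results.MP_4595ea_al.EssentialRight.result :
    ∃ (R : Type) (_ : Ring R), IsAddTorsionFree R ∧ Module.Finite ℤ R ∧
      (∀ a : R, a ≠ 0 → ∃ x ∈ Set.center R, ∃ y ∈ Set.center R, x ≠ 0 ∧ y ≠ 0 ∧ a * x = y) ∧
      ∃ I : Submodule Rᵐᵒᵖ R, (∀ J : Submodule Rᵐᵒᵖ R, J ≠ ⊥ → I ⊓ J ≠ ⊥) ∧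
        ∃ r : R, ∃ a ∈ I, r * a ∉ I :=
  open Pool.Agent.H47.Ext3 in
  ⟨E, inferInstance, inferInstance, inferInstance, ce, I, ess, notleft⟩
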